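import Pool.Agent.TH681.Pa.Defs
import Pool.Agent.TH681.Ex.Cov2
import Pool.Agent.TH681.Adv.Bits
import Pool.Agent.H671R2.PolyAuto

/-! With more advice all languages can be decided. -/

set_option autoImplicit false

namespace Pool.Agent.TH681.Pa

open Pool.Agent.NPC Pool.Agent.H620R2.Gauge Finset Pool.Agent.H622R2 Pool.Agent.TH681.Adv Filter
open Pool.Agent.TH681.Ex (exists_code df)

/-- the questions -/
def QD (β s : ℕ) (x : List Bool) : List (List Bool) :=
  (List.range s).map (fun j => true :: str (s * (valB x / 2 ^ β) + j))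

theorem poly_QD (β s : ℕ) : Poly (QD β s) := by
  unfold QD
  exact NPC.Poly.map (F := fun (x : List Bool) j => true :: str (s * (valB x / 2 ^ β) + j))
    (UPoly.const s).range (Poly.cons (NPC.Poly.const true) (p_str (Poly.add (Poly.mul
      (NPC.Poly.const _) (Poly.div ((Poly.valBits Poly.id).comp (Poly.fst Poly.id))
        (NPC.Poly.const _))) (Poly.snd Poly.id))))

/-- the output -/
def outD (β : ℕ) (tb : List (ℕ × ℕ)) (q : List Bool × List Bool) : List Bool :=
  [decide ((valB q.2, valB q.1 % 2 ^ β) ∈ tb)]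

theorem poly_outD (β : ℕ) (tb : List (ℕ × ℕ)) : Poly (outD β tb) := by
  unfold outD
  exact Poly.cons (Poly.dec_mem (Poly.pair (Poly.valBits (Poly.snd Poly.id))
    (Poly.mod (Poly.valBits (Poly.fst Poly.id)) (NPC.Poly.const _))) (NPC.Poly.const _))
      (NPC.Poly.const [])

/-- all languages can be decided -/
theorem all_languages {α δ : ℝ} (hδ : 0 ≤ δ) (hδ' : δ ≤ 1 / 2)
    (h : Real.log 2 < α * Real.log 2 + Real.binEntropy δ) (A : Oracle) (L : Set (List Bool)) :
    ∃ V : Alg, ∀ᶠ n : ℕ in atTop, ∃ (s : ℕ) (H : Oracle), (s : ℝ) ≤ α * 2 ^ n ∧ Bits H s ∧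
      (wrong V A H 0 0 L n : ℝ) ≤ δ * 2 ^ n := by
  classical
  obtain ⟨β, s, hs, C, hC, hcov⟩ := exists_code hδ hδ' h
  -- the words and the code words
  set wd : ℕ → ℕ → Fin (2 ^ β) → Bool := fun n B j =>
    decide (bitsOf n (j.1 + 2 ^ β * B) ∈ L) with hwd
  choose c hc1 hc2 using fun n B => hcov (wd n B)
  obtain ⟨e⟩ : Nonempty (C ≃ Fin C.card) := ⟨C.equivFin⟩
  set num : ℕ → ℕ → ℕ := fun n B => (e ⟨c n B, hc1 n B⟩).1 with hnum
  have hnum2 : ∀ n B, num n B < 2 ^ s := fun n B => (e ⟨c n B, hc1 n B⟩).2.trans_le hC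
  set tb : List (ℕ × ℕ) := ((Finset.range (2 ^ s) ×ˢ Finset.range (2 ^ β)).filter
    (fun z => ∃ (h1 : z.1 < C.card) (h2 : z.2 < 2 ^ β), (e.symm ⟨z.1, h1⟩).1 ⟨z.2, h2⟩ =
      true)).toList with htb
  have htb2 : ∀ n B (j : Fin (2 ^ β)), (num n B, j.1) ∈ tb ↔ c n B j = true := by
    intro n B j
    rw [htb, Finset.mem_toList, Finset.mem_filter, Finset.mem_product, Finset.mem_range,
      Finset.mem_range]
    have h1 : (e.symm ⟨num n B, (e ⟨c n B, hc1 n B⟩).2⟩).1 = c n B := by
      show (e.symm (e ⟨c n B, hc1 n B⟩)).1 = c n B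
      rw [Equiv.symm_apply_apply]
    constructor
    · rintro ⟨_, h2, h3, h4⟩
      rw [← h1]
      exact h4
    · intro h2
      exact ⟨⟨hnum2 n B, j.2⟩, (e ⟨c n B, hc1 n B⟩).2, j.2, by rw [h1]; exact h2⟩
  obtain ⟨V, hV⟩ := UFP.tt (O := fun H : Oracle => two A H) (poly_QD β s) (poly_outD β tb)
  refine ⟨V, ?_⟩
  filter_upwards [eventually_ge_atTop β] with n hn
  have hpow : (2 : ℝ) ^ β * 2 ^ (n - β) = 2 ^ n := by
    rw [← pow_add, Nat.add_sub_cancel' hn]
  have hpow2 : 2 ^ β * 2 ^ (n - β) = 2 ^ n := by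
    rw [← pow_add, Nat.add_sub_cancel' hn]
  set H : Oracle := fun y => decide (idx y < s * 2 ^ (n - β)) &&
    (num n (idx y / s)).testBit (idx y % s) with hH
  refine ⟨s * 2 ^ (n - β), H, ?_, ?_, ?_⟩
  · push_cast
    rw [← hpow, ← mul_assoc]
    exact mul_le_mul_of_nonneg_right hs (by positivity)
  · intro y hy
    rw [hH] at hy
    simp only [Bool.and_eq_true, decide_eq_true_eq] at hy
    exact hy.1
  · -- the errors
    have hB : ∀ x : List Bool, x.length = n → valB x / 2 ^ β < 2 ^ (n - β) := by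
      intro x hx
      apply Nat.div_lt_of_lt_mul
      rw [hpow2, ← hx]
      exact valB_lt x
    have hsg : ∀ x : List Bool, x.length = n →
        valB ((QD β s x).map (two A H)) = num n (valB x / 2 ^ β) := by
      intro x hx
      have h1 : (QD β s x).map (two A H) = (List.range s).map
          (fun j => (num n (valB x / 2 ^ β)).testBit j) := by
        unfold QD
        rw [List.map_map]
        apply List.map_congr_left
        intro j hj
        rw [List.mem_range] at hj
        have h2 : s * (valB x / 2 ^ β) + j < s * 2 ^ (n - β) := by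
          have h3 := Nat.mul_le_mul_left s (hB x hx)
          rw [Nat.succ_eq_add_one, mul_add, mul_one] at h3
          omega
        show H (str (s * (valB x / 2 ^ β) + j)) = _
        rw [hH]
        simp only
        rw [idx_str, decide_eq_true h2, Bool.true_and, Nat.mul_add_div (by omega),
          Nat.div_eq_of_lt hj, add_zero, Nat.mul_add_mod, Nat.mod_eq_of_lt hj]
      rw [h1, valB_testBit, Nat.mod_eq_of_lt (hnum2 _ _)]
    set U : Finset (List Bool) := (Finset.range (2 ^ (n - β))).biUnion (fun B =>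
      (univ.filter (fun j => c n B j ≠ wd n B j)).image
        (fun j : Fin (2 ^ β) => bitsOf n (j.1 + 2 ^ β * B))) with hU
    have hsub : {x : List Bool | x.length = n ∧ ¬ (x ∈ L ↔
        Quant 0 (fun y => (V.out (two A H) y).getD []) 0 true x)} ⊆ ↑U := by
      rintro x ⟨hx, hne⟩
      have hj : valB x % 2 ^ β < 2 ^ β := Nat.mod_lt _ (by positivity)
      have h1 : Quant 0 (fun y => (V.out (two A H) y).getD []) 0 true x ↔
          c n (valB x / 2 ^ β) ⟨valB x % 2 ^ β, hj⟩ = true := by
        rw [← htb2]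
        unfold Quant
        rw [hV H x, Option.getD_some]
        unfold outD
        simp only [List.cons.injEq, and_true, decide_eq_true_eq]
        rw [hsg x hx]
      rw [h1] at hne
      have hself : bitsOf n (valB x % 2 ^ β + 2 ^ β * (valB x / 2 ^ β)) = x := by
        rw [Nat.mod_add_div, ← hx]
        exact bitsOf_valB x
      rw [hU, Finset.coe_biUnion, Set.mem_iUnion₂]
      refine ⟨valB x / 2 ^ β, Finset.mem_coe.2 (Finset.mem_range.2 (hB x hx)), ?_⟩
      rw [Finset.mem_coe, Finset.mem_image]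
      refine ⟨⟨valB x % 2 ^ β, hj⟩, Finset.mem_filter.2 ⟨Finset.mem_univ _, ?_⟩, hself⟩
      intro h2
      apply hne
      rw [h2, hwd]
      simp only [decide_eq_true_iff]
      rw [hself]
    have hcard : (U.card : ℝ) ≤ δ * 2 ^ n := by
      have h1 : U.card ≤ ∑ B ∈ Finset.range (2 ^ (n - β)), df (c n B) (wd n B) :=
        Finset.card_biUnion_le.trans (Finset.sum_le_sum fun B _ => Finset.card_image_le)
      calc (U.card : ℝ) ≤ ((∑ B ∈ Finset.range (2 ^ (n - β)), df (c n B) (wd n B) : ℕ) : ℝ) := by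
            exact_mod_cast h1
        _ = ∑ B ∈ Finset.range (2 ^ (n - β)), (df (c n B) (wd n B) : ℝ) := by push_cast; rfl
        _ ≤ ∑ _B ∈ Finset.range (2 ^ (n - β)), δ * 2 ^ β :=
            Finset.sum_le_sum fun B _ => hc2 n B
        _ = δ * 2 ^ n := by
            rw [Finset.sum_const, Finset.card_range, nsmul_eq_mul, ← hpow]
            push_cast
            ring
    refine le_trans ?_ hcard
    unfold wrong
    have h2 := Set.ncard_le_ncard hsub (Finset.finite_toSet U)
    rw [Set.ncard_coe_finset] at h2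
    exact_mod_cast h2

end Pool.Agent.TH681.Pa
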