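import Pool.Agent.TH681.Pa.Stage
import Pool.Agent.TH681.Adv.Bits
import Pool.Agent.H620R2.Gauge.P

/-! The hard languages are in `⊕P` and in polynomial space. -/

set_option autoImplicit false

namespace Pool.Agent.TH681.Pa

open Pool.Agent.NPC Finset Pool.Agent.H620R2.Gauge Pool.Agent.TH681.Adv Pool.Agent.H622R2
open Pool.Agent.H620R2.Gauge.PTask (inc inc_bitsOf len_bitsOf bitsOf_eq_zero poly_inc poly_fst
  poly_snd poly_headD)

/-! ### Parity polynomial time -/

theorem parL_parityP (A : Oracle) (D : ℕ) : IsParityP A (ParL A D) := by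
  have hQ : Poly (fun y : List Bool => [(unpair y).2 ++ (unpair y).1]) :=
    Poly.cons (Poly.append poly_snd poly_fst) (NPC.Poly.const [])
  have hV := IsFP.tt (A := A) hQ (H := fun q => q.2) (Poly.snd Poly.id)
  refine ⟨_, Polynomial.X ^ D, hV, fun x => ?_⟩
  have h1 : {w : List Bool | w.length = (Polynomial.X ^ D : Polynomial ℕ).eval x.length ∧
      ([(unpair (pairBits w x)).2 ++ (unpair (pairBits w x)).1].map A) = [true]} =
      ↑(((Finset.range (2 ^ (x.length ^ D))).filter
        (fun j => A (x ++ bitsOf (x.length ^ D) j) = true)).image (bitsOf (x.length ^ D))) := by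
    ext w
    simp only [Polynomial.eval_pow, Polynomial.eval_X, Set.mem_ofPred_eq, unpair_pairBits,
      List.map_cons, List.map_nil, Finset.coe_image, Finset.coe_filter, Set.mem_image,
      Finset.mem_range, List.cons.injEq, and_true]
    constructor
    · rintro ⟨hw, h⟩
      obtain ⟨j, hj, h2⟩ := exists_bitsOf w
      rw [hw] at hj h2
      exact ⟨j, ⟨hj, by rw [h2]; exact h⟩, h2⟩
    · rintro ⟨j, ⟨hj, h⟩, rfl⟩
      exact ⟨length_bitsOf _ _, h⟩
  show x ∈ ParL A D ↔ Odd {w : List Bool | w.length =
    (Polynomial.X ^ D : Polynomial ℕ).eval x.length ∧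
      ([(unpair (pairBits w x)).2 ++ (unpair (pairBits w x)).1].map A) = [true]}.ncard
  rw [h1, Set.ncard_coe_finset, Finset.card_image_of_injOn]
  · rfl
  · intro j hj j' hj' h
    rw [Finset.mem_coe, Finset.mem_filter, Finset.mem_range] at hj hj'
    exact bitsOf_inj hj.1 hj'.1 h

/-! ### Polynomial space -/

variable (D : ℕ)

/-- the zeros -/
def zeros (x : List Bool) : List Bool := List.replicate (x.length ^ D) false

theorem poly_zeros : Poly (zeros D) := by
  have h : UPoly (fun x : List Bool => x.length ^ D) :=
    (UPoly.eval (UPoly.length Poly.id) (Polynomial.X ^ D)).congr fun x => by simp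
  exact p_replicate h false

/-- the next action -/
def act (y : List Bool) : List Bool :=
  match (unpair y).2 with
  | [] => false :: ((unpair y).1 ++ zeros D (unpair y).1)
  | c :: t => bif c then false :: ((unpair y).1 ++ t.tail) else true :: t

/-- the new content of the memory, given the parity so far and the string just asked -/
def upd (x : List Bool) (b : Bool) (w : List Bool) : List Bool :=
  if inc w = zeros D x then [false, b] else true :: b :: inc w

/-- the new content of the memory -/
def next (y : List Bool) : List Bool :=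
  match (unpair y).2.tail with
  | [] => upd D (unpair y).1 ((unpair y).2.head?.getD false) (zeros D (unpair y).1)
  | _ :: t => upd D (unpair y).1 (((unpair y).2.head?.getD false) ^^ (t.head?.getD false)) t.tail

theorem act_pair (x s : List Bool) : act D (pairBits x s) =
    match s with
    | [] => false :: (x ++ zeros D x)
    | c :: t => bif c then false :: (x ++ t.tail) else true :: t := by
  unfold act
  rw [unpair_pairBits]

theorem next_pair (x s : List Bool) (b : Bool) : next D (pairBits x (b :: s)) =
    match s with
    | [] => upd D x b (zeros D x)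
    | _ :: t => upd D x (b ^^ (t.head?.getD false)) t.tail := by
  unfold next
  rw [unpair_pairBits]
  rfl

theorem poly_act : Poly (act D) := by
  refine (Poly.listCases (l := fun y => (unpair y).2)
    (g := fun y => false :: ((unpair y).1 ++ zeros D (unpair y).1))
    (h := fun y c t => bif c then false :: ((unpair y).1 ++ t.tail) else true :: t)
    poly_snd ?_ ?_).congr fun y => by
      unfold act
      cases (unpair y).2 <;> rfl
  · exact Poly.cons (NPC.Poly.const false) (Poly.append poly_fst ((poly_zeros D).comp poly_fst))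
  · refine Poly.cond (Poly.fst (Poly.snd Poly.id)) (Poly.cons (NPC.Poly.const false)
      (Poly.append (poly_fst.comp (Poly.fst Poly.id)) (Poly.tail (Poly.snd (Poly.snd Poly.id)))))
      (Poly.cons (NPC.Poly.const true) (Poly.snd (Poly.snd Poly.id)))

theorem poly_upd {α : Type} [TEnc α] {x w : α → List Bool} {b : α → Bool} (hx : Poly x)
    (hb : Poly b) (hw : Poly w) : Poly (fun a => upd D (x a) (b a) (w a)) := by
  have hi : Poly (fun a => inc (w a)) := poly_inc.comp hw
  exact Poly.ite (Poly.decide_eq hi ((poly_zeros D).comp hx))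
    (Poly.cons (NPC.Poly.const false) (Poly.cons hb (NPC.Poly.const [])))
    (Poly.cons (NPC.Poly.const true) (Poly.cons hb hi))

theorem poly_next : Poly (next D) := by
  refine (Poly.listCases (l := fun y => (unpair y).2.tail)
    (g := fun y => upd D (unpair y).1 ((unpair y).2.head?.getD false) (zeros D (unpair y).1))
    (h := fun y _ t => upd D (unpair y).1
      (((unpair y).2.head?.getD false) ^^ (t.head?.getD false)) t.tail)
    (Poly.tail poly_snd) ?_ ?_).congr fun y => by
      unfold next
      cases (unpair y).2.tail <;> rfl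
  · exact poly_upd D poly_fst (poly_headD poly_snd) ((poly_zeros D).comp poly_fst)
  · exact poly_upd D (poly_fst.comp (Poly.fst Poly.id))
      (Poly.xor ((poly_headD poly_snd).comp (Poly.fst Poly.id))
        (poly_headD (Poly.snd (Poly.snd Poly.id)))) (Poly.tail (Poly.snd (Poly.snd Poly.id)))

/-- the algorithm -/
def alg : SAlg where
  act := act D
  act_poly := polyTime_of_poly_list (poly_act D)
  next := next D
  next_poly := polyTime_of_poly_list (poly_next D)

/-- the parity of the first `j` answers -/
def parity (A : Oracle) (x : List Bool) (j : ℕ) : Bool :=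
  decide (Odd ((Finset.range j).filter
    (fun i => A (x ++ bitsOf (x.length ^ D) i) = true)).card)

theorem parity_zero (A : Oracle) (x : List Bool) : parity D A x 0 = false := by
  simp [parity]

theorem parity_succ (A : Oracle) (x : List Bool) (j : ℕ) :
    parity D A x (j + 1) = (A (x ++ bitsOf (x.length ^ D) j) ^^ parity D A x j) := by
  unfold parity
  rw [Finset.range_add_one, Finset.filter_insert]
  cases h : A (x ++ bitsOf (x.length ^ D) j)
  · simp
  · rw [if_pos rfl, Finset.card_insert_of_notMem (by simp), Bool.true_xor, ← decide_not,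
      decide_eq_decide, Nat.odd_add_one]

/-- the content of the memory after `j` rounds -/
def cont (A : Oracle) (x : List Bool) (j : ℕ) : List Bool :=
  if j = 0 then [] else if j < 2 ^ (x.length ^ D) then
    true :: parity D A x j :: bitsOf (x.length ^ D) j else [false, parity D A x j]

theorem act_cont (A : Oracle) (x : List Bool) {j : ℕ} (hj : j < 2 ^ (x.length ^ D)) :
    act D (pairBits x (cont D A x j)) = false :: (x ++ bitsOf (x.length ^ D) j) := by
  rw [act_pair]
  unfold cont
  by_cases h : j = 0
  · subst h
    rw [if_pos rfl]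
    simp only
    rw [zeros, (bitsOf_eq_zero (x.length ^ D) 0).2 (Nat.zero_mod _)]
  · rw [if_neg h, if_pos hj]
    simp

theorem upd_eq (A : Oracle) (x : List Bool) {j : ℕ} (hj : j < 2 ^ (x.length ^ D)) :
    upd D x (A (x ++ bitsOf (x.length ^ D) j) ^^ parity D A x j) (bitsOf (x.length ^ D) j) =
      cont D A x (j + 1) := by
  unfold upd cont
  rw [inc_bitsOf, zeros, ← parity_succ, if_neg (Nat.succ_ne_zero j)]
  simp only [bitsOf_eq_zero]
  by_cases h : j + 1 < 2 ^ (x.length ^ D)
  · rw [if_pos h, if_neg]
    rw [Nat.mod_eq_of_lt h]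
    omega
  · have h1 : j + 1 = 2 ^ (x.length ^ D) := by omega
    rw [if_neg h, if_pos]
    rw [h1, Nat.mod_self]

theorem next_cont (A : Oracle) (x : List Bool) {j : ℕ} (hj : j < 2 ^ (x.length ^ D)) :
    next D (pairBits x (A (x ++ bitsOf (x.length ^ D) j) :: cont D A x j)) =
      cont D A x (j + 1) := by
  rw [next_pair, ← upd_eq D A x hj]
  by_cases h : j = 0
  · subst h
    rw [cont, if_pos rfl]
    simp only
    rw [zeros, ← (bitsOf_eq_zero (x.length ^ D) 0).2 (Nat.zero_mod _), parity_zero,
      Bool.xor_false]
  · rw [cont, if_neg h, if_pos hj]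
    simp

theorem act_last (A : Oracle) (x : List Bool) :
    act D (pairBits x (cont D A x (2 ^ (x.length ^ D)))) =
      [true, parity D A x (2 ^ (x.length ^ D))] := by
  rw [act_pair]
  unfold cont
  rw [if_neg (by positivity), if_neg (lt_irrefl _)]
  rfl

theorem reach_cont (A : Oracle) (x : List Bool) : ∀ j, j ≤ 2 ^ (x.length ^ D) →
    (alg D).Reach A x (cont D A x j)
  | 0, _ => by
    have h : cont D A x 0 = [] := if_pos rfl
    rw [h]
    exact SAlg.Reach.start
  | j + 1, h => by
    have h1 := reach_cont A x j (by omega)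
    have h2 := SAlg.Reach.step h1 (q := x ++ bitsOf (x.length ^ D) j)
      (act_cont D A x (Nat.lt_of_succ_le h))
    have h3 : (alg D).next (pairBits x (A (x ++ bitsOf (x.length ^ D) j) :: cont D A x j)) =
      cont D A x (j + 1) := next_cont D A x (Nat.lt_of_succ_le h)
    rw [h3] at h2
    exact h2

theorem cont_of_reach (A : Oracle) (x : List Bool) {s : List Bool} (h : (alg D).Reach A x s) :
    ∃ j, j ≤ 2 ^ (x.length ^ D) ∧ s = cont D A x j := by
  induction h with
  | start => exact ⟨0, Nat.zero_le _, (if_pos rfl).symm⟩
  | step h1 h2 ih =>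
    obtain ⟨j, hj, rfl⟩ := ih
    change act D (pairBits x (cont D A x j)) = _ at h2
    rcases Nat.lt_or_ge j (2 ^ (x.length ^ D)) with h | h
    · rw [act_cont D A x h] at h2
      rw [List.cons.injEq] at h2
      refine ⟨j + 1, h, ?_⟩
      rw [← next_cont D A x h, h2.2]
      rfl
    · have h3 : j = 2 ^ (x.length ^ D) := le_antisymm hj h
      rw [h3, act_last] at h2
      simp at h2

theorem length_cont (A : Oracle) (x : List Bool) (j : ℕ) :
    (cont D A x j).length ≤ x.length ^ D + 2 := by
  unfold cont
  split_ifs
  · simp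
  · simp [len_bitsOf]
  · simp

theorem parL_pspace (A : Oracle) : IsPSPACE A (ParL A D) := by
  refine ⟨alg D, Polynomial.X ^ D + Polynomial.C 2, fun x => ⟨fun s hs => ?_, ?_⟩⟩
  · obtain ⟨j, -, rfl⟩ := cont_of_reach D A x hs
    simpa using length_cont D A x j
  · refine ⟨cont D A x (2 ^ (x.length ^ D)), [parity D A x (2 ^ (x.length ^ D))],
      reach_cont D A x _ le_rfl, act_last D A x, ?_⟩
    simp [ParL, parity]

end Pool.Agent.TH681.Pa
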