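import Pool.Agent.H620R2.Gauge.Comb

/-! The number of errors of shallow decision trees for independent parities. -/

set_option autoImplicit false

namespace Pool.Agent.TH681.Pa

open Pool.Agent.NPC Finset H568R2 Pool.Agent.H676 Pool.Agent.H620R2.Gauge

section

variable {I : Type} [Fintype I] [DecidableEq I]

/-- the products of the correlations vanish -/
theorem corr_zero {ι : Type} [DecidableEq ι] (ρ : Restr I) (X : Finset ι) (B : ι → Finset I)
    (hB : ∀ x ∈ X, ∀ x' ∈ X, x ≠ x' → Disjoint (B x) (B x')) (g : ι → (I → Bool) → Bool) (t : ℕ)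
    (hg : ∀ x ∈ X, DTr t (rs (g x) ρ))
    (hs : ∀ x ∈ X, X.card * t < ((B x).filter (fun i => ρ i = none)).card)
    (S : Finset ι) (hSX : S ⊆ X) (hne : S ≠ ∅) : Ex unif (fun a : I → Bool =>
      ∏ x ∈ S, (sgb (g x (ov ρ a)) * sgb (par (B x) (ov ρ a)))) = 0 := by
  -- the union of the star parts
  let U : Finset I := S.biUnion fun x => (B x).filter (fun i => ρ i = none)
  have hdis : (S : Set ι).PairwiseDisjoint fun x => (B x).filter (fun i => ρ i = none) := by
    intro x hx y hy hxy
    exact Finset.disjoint_of_subset_left (Finset.filter_subset _ _)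
      (Finset.disjoint_of_subset_right (Finset.filter_subset _ _)
        (hB x (hSX hx) y (hSX hy) hxy))
  have e3 : ∀ a : I → Bool, ∏ x ∈ S, (sgb (g x (ov ρ a)) * sgb (par (B x) (ov ρ a))) =
      (∏ x ∈ S, ∏ i ∈ (B x).filter (fun i => ¬ ρ i = none), sgb ((ρ i).getD false)) *
      ((∏ x ∈ S, sgb (g x (ov ρ a))) * ch (fun i => decide (i ∈ U)) a) := by
    intro a
    have e4 : ch (fun i => decide (i ∈ U)) a = ∏ i ∈ U, sgb (a i) := by
      unfold ch
      rw [← Finset.prod_subset (Finset.subset_univ U)]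
      · refine Finset.prod_congr rfl fun i hi => ?_
        simp [hi, sgb]
      · intro i _ hi
        simp [hi]
    have e5 : ∀ x, sgb (par (B x) (ov ρ a)) =
        (∏ i ∈ (B x).filter (fun i => ¬ ρ i = none), sgb ((ρ i).getD false)) *
        ∏ i ∈ (B x).filter (fun i => ρ i = none), sgb (a i) := by
      intro x
      rw [sgb_par, ← Finset.prod_filter_mul_prod_filter_not (B x) (fun i => ρ i = none), mul_comm]
      congr 1
      · refine Finset.prod_congr rfl fun i hi => ?_
        have := (Finset.mem_filter.1 hi).2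
        unfold ov
        cases h : ρ i with
        | none => exact absurd h this
        | some b => rfl
      · refine Finset.prod_congr rfl fun i hi => ?_
        unfold ov
        rw [(Finset.mem_filter.1 hi).2]
        rfl
    rw [e4, Finset.prod_biUnion hdis, Finset.prod_mul_distrib,
      Finset.prod_congr rfl fun x _ => e5 x, Finset.prod_mul_distrib]
    ring
  rw [funext e3, Ex_smul, Ex_unif]
  have hd : Deg (S.card * t) (fun a => ∏ x ∈ S, sgb (g x (ov ρ a))) :=
    deg_prod S (fun x a => sgb (g x (ov ρ a))) t fun x hx => deg_sgb (hg x (hSX hx))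
  have hw : S.card * t < wt (fun i => decide (i ∈ U)) := by
    obtain ⟨x, hx⟩ := Finset.nonempty_iff_ne_empty.2 hne
    have h1 : (univ.filter (fun i => decide (i ∈ U) = true)) = U := by
      ext i; simp
    unfold wt
    rw [h1]
    have h2 : ((B x).filter (fun i => ρ i = none)) ⊆ U :=
      Finset.subset_biUnion_of_mem (fun x => (B x).filter (fun i => ρ i = none)) hx
    have h3 := Finset.card_le_card h2
    have h4 := hs x (hSX hx)
    have h5 : S.card * t ≤ X.card * t := Nat.mul_le_mul_right t (Finset.card_le_card hSX)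
    omega
  have h0 := hd _ hw
  unfold co at h0
  rw [h0, mul_zero]

/-- the generating function of the number of errors -/
theorem xor_cost {ι : Type} [DecidableEq ι] (ρ : Restr I) (X : Finset ι) (B : ι → Finset I)
    (hB : ∀ x ∈ X, ∀ x' ∈ X, x ≠ x' → Disjoint (B x) (B x')) (g : ι → (I → Bool) → Bool) (t : ℕ)
    (hg : ∀ x ∈ X, DTr t (rs (g x) ρ))
    (hs : ∀ x ∈ X, X.card * t < ((B x).filter (fun i => ρ i = none)).card) (θ : ℝ) :
    Ex unif (fun a : I → Bool =>
      θ ^ (X.filter (fun x => g x (ov ρ a) ≠ par (B x) (ov ρ a))).card) =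
      ((1 + θ) / 2) ^ X.card := by
  have e1 : ∀ a : I → Bool,
      θ ^ (X.filter (fun x => g x (ov ρ a) ≠ par (B x) (ov ρ a))).card =
      ∑ S ∈ X.powerset, (((1 - θ) / 2) ^ S.card * ((1 + θ) / 2) ^ (X \ S).card) *
        ∏ x ∈ S, (sgb (g x (ov ρ a)) * sgb (par (B x) (ov ρ a))) := by
    intro a
    have h1 : θ ^ (X.filter (fun x => g x (ov ρ a) ≠ par (B x) (ov ρ a))).card =
        ∏ x ∈ X, ((1 - θ) / 2 * (sgb (g x (ov ρ a)) * sgb (par (B x) (ov ρ a))) +
          (1 + θ) / 2) := by
      rw [← Finset.prod_const, Finset.prod_filter]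
      refine Finset.prod_congr rfl fun x _ => ?_
      cases g x (ov ρ a) <;> cases par (B x) (ov ρ a) <;> simp [sgb] <;> ring
    rw [h1, Finset.prod_add]
    refine Finset.sum_congr rfl fun S _ => ?_
    rw [Finset.prod_mul_distrib, Finset.prod_const, Finset.prod_const]
    ring
  rw [funext e1, Ex_sum]
  have e2 : ∀ S ∈ X.powerset, S ≠ ∅ → Ex unif (fun a : I → Bool =>
      (((1 - θ) / 2) ^ S.card * ((1 + θ) / 2) ^ (X \ S).card) *
      ∏ x ∈ S, (sgb (g x (ov ρ a)) * sgb (par (B x) (ov ρ a)))) = 0 := by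
    intro S hS hne
    rw [Ex_smul, corr_zero ρ X B hB g t hg hs S (Finset.mem_powerset.1 hS) hne, mul_zero]
  rw [Finset.sum_eq_single ∅ (fun S hS hne => e2 S hS hne)
    (fun h => absurd (Finset.empty_mem_powerset X) h)]
  simp only [Finset.prod_empty, Finset.card_empty, pow_zero, one_mul, mul_one,
    Finset.sdiff_empty]
  rw [Ex_const unif_sum]

/-- few errors are improbable for alternating quantifiers in front of shallow decision trees -/
theorem comb {t : ℕ} (ht : 1 ≤ t) {q : ℝ} (h0 : 0 ≤ q)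
    (h1 : q ≤ 1 / 3) (m : ℕ) (F : List Bool → (I → Bool) → Bool) (k ℓ : ℕ)
    (hF : ∀ y : List Bool, y.length ≤ ℓ + k * (2 * m + 1) → DTr t (F y))
    {ι : Type} [DecidableEq ι] (X : Finset ι) (B : ι → Finset I)
    (hB : ∀ x ∈ X, ∀ x' ∈ X, x ≠ x' → Disjoint (B x) (B x'))
    (y : ι → List Bool) (hy : ∀ x ∈ X, (y x).length ≤ ℓ)
    (r s : ℕ) (hr : X.card * t ≤ r) (hs : ∀ x ∈ X, (r + 1) * s ≤ (B x).card)
    {θ : ℝ} (hθ0 : 0 < θ) (hθ1 : θ ≤ 1) (e : ℕ) :
    Ex unif (fun a : I → Bool =>
      if (X.filter (fun x => QF m F k true (y x) a ≠ par (B x) a)).card ≤ e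
        then (1 : ℝ) else 0) ≤
      k * 2 ^ (ℓ + k * (2 * m + 1) + 2) * (12 * t * q) ^ (t + 1) +
        X.card * ((r + 1) * (1 - q ^ k) ^ s) + (θ ^ e)⁻¹ * ((1 + θ) / 2) ^ X.card := by
  classical
  have hq0 : 0 ≤ q ^ k := pow_nonneg h0 k
  have hq1 : q ^ k ≤ 1 := pow_le_one₀ h0 (by linarith)
  have hc0 : 0 ≤ (θ ^ e)⁻¹ * ((1 + θ) / 2) ^ X.card := by positivity
  rw [← Ex_ov (q := q ^ k)]
  have hpt : ∀ ρ : Restr I, Ex unif (fun a : I → Bool =>
      if (X.filter (fun x => QF m F k true (y x) (ov ρ a) ≠ par (B x) (ov ρ a))).card ≤ e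
        then (1 : ℝ) else 0) ≤
      ((if ¬ ∀ y : List Bool, y.length ≤ ℓ → ∀ b, DTr t (rs (QF m F k b y) ρ) then (1 : ℝ) else 0) +
        ∑ x ∈ X, (if ((B x).filter (fun i => ρ i = none)).card ≤ r then (1 : ℝ) else 0)) +
        (θ ^ e)⁻¹ * ((1 + θ) / 2) ^ X.card := by
    intro ρ
    have hle1 : Ex unif (fun a : I → Bool =>
      if (X.filter (fun x => QF m F k true (y x) (ov ρ a) ≠ par (B x) (ov ρ a))).card ≤ e
        then (1 : ℝ) else 0) ≤ 1 := by
      calc _ ≤ Ex unif (fun _ : I → Bool => (1 : ℝ)) := by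
            apply Ex_mono unif_nonneg
            intro a
            split_ifs <;> norm_num
        _ = 1 := Ex_const unif_sum 1
    have hs0 : 0 ≤ ∑ x ∈ X, (if ((B x).filter (fun i => ρ i = none)).card ≤ r
        then (1 : ℝ) else 0) := Finset.sum_nonneg fun x _ => by split_ifs <;> norm_num
    by_cases hG : ∀ y : List Bool, y.length ≤ ℓ → ∀ b, DTr t (rs (QF m F k b y) ρ)
    · by_cases hst : ∃ x ∈ X, ((B x).filter (fun i => ρ i = none)).card ≤ r
      · obtain ⟨x, hx, hxr⟩ := hst
        have h2 : (1 : ℝ) ≤ ∑ x ∈ X, (if ((B x).filter (fun i => ρ i = none)).card ≤ r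
            then (1 : ℝ) else 0) := by
          refine le_trans ?_ (Finset.single_le_sum (f := fun x =>
            if ((B x).filter (fun i => ρ i = none)).card ≤ r then (1 : ℝ) else 0)
            (fun x _ => by positivity) hx)
          rw [if_pos hxr]
        have h3 : (0:ℝ) ≤ (if ¬ ∀ y : List Bool, y.length ≤ ℓ → ∀ b, DTr t (rs (QF m F k b y) ρ)
          then (1 : ℝ) else 0) := by split_ifs <;> norm_num
        linarith
      · push Not at hst
        have h3 : (0:ℝ) ≤ (if ¬ ∀ y : List Bool, y.length ≤ ℓ → ∀ b, DTr t (rs (QF m F k b y) ρ)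
          then (1 : ℝ) else 0) := by split_ifs <;> norm_num
        have h4 : Ex unif (fun a : I → Bool =>
            if (X.filter (fun x => QF m F k true (y x) (ov ρ a) ≠ par (B x) (ov ρ a))).card ≤ e
              then (1 : ℝ) else 0) ≤ Ex unif (fun a : I → Bool => (θ ^ e)⁻¹ *
            θ ^ (X.filter (fun x => QF m F k true (y x) (ov ρ a) ≠
              par (B x) (ov ρ a))).card) := by
          apply Ex_mono unif_nonneg
          intro a
          have hpos : 0 < θ ^ e := by positivity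
          split_ifs with h
          · rw [← div_eq_inv_mul, le_div_iff₀ hpos, one_mul]
            exact pow_le_pow_of_le_one hθ0.le hθ1 h
          · positivity
        rw [Ex_smul, xor_cost ρ X B hB (fun x => QF m F k true (y x)) t
          (fun x hx => hG _ (hy x hx) true) (fun x hx => lt_of_le_of_lt hr (hst x hx)) θ] at h4
        linarith
    · rw [if_pos hG]
      linarith
  refine (Ex_mono (wq_nonneg hq0 hq1) hpt).trans ?_
  rw [Ex_add, Ex_add, Ex_sum, Ex_const (wq_sum (q ^ k))]
  have h7 := switch_alt ht h0 h1 m F k ℓ hF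
  have h8 : ∀ x ∈ X, Ex (wq (q ^ k)) (fun ρ : Restr I =>
      if ((B x).filter (fun i => ρ i = none)).card ≤ r then (1 : ℝ) else 0) ≤
      (r + 1) * (1 - q ^ k) ^ s := fun x hx => few_stars hq0 hq1 (B x) r s (hs x hx)
  have h9 := Finset.sum_le_sum h8
  rw [Finset.sum_const, nsmul_eq_mul] at h9
  linarith

end

end Pool.Agent.TH681.Pa
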