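import Pool.Agent.TH681.Adv.Defs
import Mathlib.Analysis.SpecialFunctions.BinaryEntropy

/-!
# Alternating algorithms with advice that may err

The oracles, the polynomial-time oracle algorithms `Alg` and the alternating quantifiers `Quant`
are those of `Pool.Agent.H620R2.Gauge`; `two A H` is the oracle that answers questions `0 y` about
`A` and questions `1 y` about `H`; `idx y` is the number of the string `y` in the list
`[], 0, 1, 00, 01, 10, 11, 000, ...` of all strings.
-/

set_option autoImplicit false

namespace Pool.Agent.TH681.Pa

open Pool.Agent.NPC Pool.Agent.H620R2.Gauge Pool.Agent.TH681.Adv

/-- The language `L` is in `⊕P` relative to `A`: `x` is in `L` if and only if the number of the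
strings `w` of length `p |x|` with `V ⟨w, x⟩ = [true]` is odd, for some polynomial `p` and some
function `V` that is polynomial-time computable relative to `A`. -/
def IsParityP (A : Oracle) (L : Set (List Bool)) : Prop :=
  ∃ (V : List Bool → List Bool) (p : Polynomial ℕ), IsFP A V ∧
    ∀ x, x ∈ L ↔ Odd {w : List Bool | w.length = p.eval x.length ∧
      V (pairBits w x) = [true]}.ncard

/-- `H` is an advice of `s` bits: it contains none of the strings with a number `≥ s`. -/
def Bits (H : Oracle) (s : ℕ) : Prop := ∀ y, H y = true → idx y < s

/-- The number of the inputs `x` of length `n` on which the alternating algorithm is wrong: it is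
not true that `x` is in `L` if and only if `V` accepts after `k` alternating quantifiers over the
strings of length at most `m`, the first one existential, where `V` may ask for the bits of `A` and
for the bits of the advice `H`. -/
noncomputable def wrong (V : Alg) (A H : Oracle) (m k : ℕ) (L : Set (List Bool)) (n : ℕ) : ℕ :=
  {x : List Bool | x.length = n ∧
    ¬ (x ∈ L ↔ Quant m (fun y => (V.out (two A H) y).getD []) k true x)}.ncard

end Pool.Agent.TH681.Pa
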