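import Pool.Agent.TH681.Pa.Num
import Pool.Agent.TH681.Ex.Main

/-! The lower bound for almost all oracles. -/

set_option autoImplicit false

namespace Pool.Agent.TH681.Pa

open Finset Filter Topology Pool.Agent.H620R2.Gauge Pool.Agent.TH681.Imm Pool.Agent.TH681.Adv
  MeasureTheory
open Pool.Agent.H628R3.RO (randomOracle coin)

/-- some alternating algorithm with some advice makes few errors -/
def Bad (V : Alg) (c d S e n : ℕ) : Set Oracle :=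
  {A | ∃ k m : ℕ, k ≤ n ^ d ∧ m ≤ 2 ^ (c * n) ∧ ∃ H, Bits H S ∧
    wrong V A H m k (ParL A (d + 2)) n ≤ e}

theorem one_le {c d C S e n k m : ℕ} {α δ lam θ : ℝ} (hδ0 : 0 < δ) (hδ1 : δ < 1 / 2)
    (hα : 0 ≤ α) (hlam : lam = Real.log 2 - Real.binEntropy δ - α * Real.log 2) (hpos : 0 < lam)
    (hθ : θ = δ / (1 - δ)) (hC : c + 4 ≤ C) (hn : 2 * C + 9 ≤ n) (hk1 : k ≤ 2 ^ n)
    (hk2 : k ≤ n ^ d) (hm : m ≤ 2 ^ (c * n)) (hS : (S : ℝ) ≤ α * 2 ^ n)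
    (he : (e : ℝ) ≤ δ * 2 ^ n) :
    2 ^ S * bd (2 ^ (C * n)) m k n (sz' C d n) e θ ≤ 2 * (2 * Real.exp (-(lam / 2 * 2 ^ n))) := by
  have hlog : 0 < Real.log 2 := Real.log_pos (by norm_num)
  have hH : 0 ≤ Real.binEntropy δ := Real.binEntropy_nonneg hδ0.le (by linarith)
  have hα1 : α ≤ 1 := by nlinarith
  have hlam1 : lam ≤ Real.log 2 := by nlinarith
  have hδ2 : 0 < 1 - δ := by linarith
  have hθ0 : 0 < θ := by rw [hθ]; positivity
  have hθ1 : θ ≤ 1 := by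
    rw [hθ, div_le_one hδ2]
    linarith
  have hS2 : S ≤ 2 ^ n := by
    have h1 : (S : ℝ) ≤ ((2 ^ n : ℕ) : ℝ) := by
      push_cast
      refine hS.trans ?_
      have : (0 : ℝ) < 2 ^ n := by positivity
      nlinarith
    exact_mod_cast h1
  have h2S : (2 : ℝ) ^ S ≤ 2 ^ (2 ^ n) := pow_le_pow_right₀ (by norm_num) hS2
  have hhalf : (2 : ℝ) ^ S * (1 / 2) ^ (2 * 2 ^ n) ≤ Real.exp (-(lam / 2 * 2 ^ n)) := by
    calc (2 : ℝ) ^ S * (1 / 2) ^ (2 * 2 ^ n) ≤ 2 ^ (2 ^ n) * (1 / 2) ^ (2 * 2 ^ n) :=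
          mul_le_mul_of_nonneg_right h2S (by positivity)
      _ = (1 / 2) ^ (2 ^ n) := by
          rw [two_mul, pow_add, ← mul_assoc, ← mul_pow]
          norm_num
      _ = Real.exp (-(2 ^ n * Real.log 2)) := by
          rw [Real.exp_neg, one_div, inv_pow]
          congr 1
          have : ((2 ^ n : ℕ) : ℝ) = 2 ^ n := by push_cast; rfl
          rw [← this, Real.exp_nat_mul, Real.exp_log (by norm_num)]
      _ ≤ _ := by
          apply Real.exp_le_exp.2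
          have : (0 : ℝ) < 2 ^ n := by positivity
          nlinarith
  have t1 := num_switch hC (by omega) hk1 hm
  have t2 := num_stars (C := C) (d := d) hn hk2
  obtain ⟨C', hC'⟩ := exists_nat_ge (8 / lam)
  have t3 := Ex.estimate (α := α) (v := 0) (γ := 0) (T := 0) (S := S) (m := e) (n := n)
    (p := 1) (ε := lam / 8) (C := C') (ρ := θ + (1 - θ) * (1 / 2 + lam / 8)) hδ0 hδ1 hlam hpos
    (by linarith) le_rfl hC' hθ rfl one_pos (by norm_num) (by simp) hS he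
  have t3' : (2 : ℝ) ^ S * ((θ ^ e)⁻¹ * ((1 + θ) / 2) ^ 2 ^ n) ≤
      2 * Real.exp (-(lam / 2 * 2 ^ n)) := by
    refine le_trans ?_ t3
    rw [Nat.mul_zero, pow_zero, one_mul]
    apply mul_le_mul
    · exact pow_le_pow_right₀ (by norm_num) (by omega)
    · apply mul_le_mul_of_nonneg_left _ (by positivity)
      apply pow_le_pow_left₀ (by linarith)
      nlinarith
    · positivity
    · positivity
  unfold bd
  rw [mul_add, mul_add]
  have s1 := mul_le_mul_of_nonneg_left t1 (show (0 : ℝ) ≤ 2 ^ S by positivity)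
  have s2 := mul_le_mul_of_nonneg_left t2 (show (0 : ℝ) ≤ 2 ^ S by positivity)
  linarith

theorem bad_le (V : Alg) (c d : ℕ) {α δ lam : ℝ} (hδ0 : 0 < δ) (hδ1 : δ < 1 / 2)
    (hα : 0 ≤ α) (hlam : lam = Real.log 2 - Real.binEntropy δ - α * Real.log 2)
    (hpos : 0 < lam) : ∀ᶠ n : ℕ in atTop, ∀ S e : ℕ, (S : ℝ) ≤ α * 2 ^ n →
      (e : ℝ) ≤ δ * 2 ^ n →
      randomOracle (Bad V c d S e n) ≤ ENNReal.ofReal ((1 / 2) ^ n) := by
  set C : ℕ := (c + 2) * V.p.natDegree + 1 + (c + 4) with hCdef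
  have hC : c + 4 ≤ C := by omega
  filter_upwards [eventually_ge_atTop (2 * C + 9), poly_lt (Polynomial.X ^ d),
    poly_lt (Polynomial.C (V.p.eval 1)), poly_lt (Polynomial.C (c + 3) * Polynomial.X + 4),
    Ex.small_eventually hpos] with n hn h1 h2 h3 h4 S e hS he
  rw [Polynomial.eval_pow, Polynomial.eval_X] at h1
  rw [Polynomial.eval_C] at h2
  have h3' : (c + 3) * n + 4 ≤ 2 ^ (n / 8) := by simpa using h3
  have h8 : 2 ^ (n / 8) ≤ 2 ^ n := Nat.pow_le_pow_right (by norm_num) (Nat.div_le_self _ _)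
  set θ : ℝ := δ / (1 - δ) with hθ
  have hδ2 : 0 < 1 - δ := by linarith
  have hθ0 : 0 < θ := by rw [hθ]; positivity
  have hθ1 : θ ≤ 1 := by
    rw [hθ, div_le_one hδ2]
    linarith
  set K := Finset.range (n ^ d + 1) ×ˢ Finset.range (2 ^ (c * n) + 1) with hK
  have hsub : Bad V c d S e n ⊆ ⋃ z ∈ K, {A : Oracle | ∃ H, Bits H S ∧
      wrong V A H z.2 z.1 (ParL A (d + 2)) n ≤ e} := by
    rintro A ⟨k, m, hk, hm, h⟩
    simp only [Set.mem_iUnion]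
    refine ⟨(k, m), ?_, h⟩
    rw [hK, Finset.mem_product, Finset.mem_range, Finset.mem_range]
    exact ⟨Nat.lt_succ_of_le hk, Nat.lt_succ_of_le hm⟩
  refine (measure_mono hsub).trans ((measure_biUnion_finset_le _ _).trans ?_)
  have hone : ∀ z ∈ K, randomOracle {A : Oracle | ∃ H, Bits H S ∧
      wrong V A H z.2 z.1 (ParL A (d + 2)) n ≤ e} ≤
      ENNReal.ofReal (2 * (2 * Real.exp (-(lam / 2 * 2 ^ n)))) := by
    rintro ⟨k, m⟩ hz
    rw [hK, Finset.mem_product, Finset.mem_range, Finset.mem_range] at hz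
    have hk : k ≤ n ^ d := Nat.le_of_lt_succ hz.1
    have hm : m ≤ 2 ^ (c * n) := Nat.le_of_lt_succ hz.2
    have hk1 : k ≤ 2 ^ n := hk.trans (h1.trans h8)
    refine (all_H V (t := 2 ^ (C * n)) (s := sz' C d n) (D := d + 2) Nat.one_le_two_pow ?_ ?_ hθ0
      hθ1).trans (ENNReal.ofReal_le_ofReal (one_le hδ0 hδ1 hα hlam hpos hθ hC hn hk1 hk hm hS he))
    · refine (num_eval V.p (h2.trans h8) (num_len (by omega) hk1 hm)).trans ?_
      apply Nat.pow_le_pow_right (by norm_num)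
      exact Nat.mul_le_mul_right _ (by omega)
    · exact num_size hn
  refine (Finset.sum_le_sum hone).trans ?_
  rw [Finset.sum_const, hK, Finset.card_product, Finset.card_range, Finset.card_range,
    nsmul_eq_mul, ← ENNReal.ofReal_natCast, ← ENNReal.ofReal_mul (by positivity)]
  apply ENNReal.ofReal_le_ofReal
  refine le_trans ?_ h4
  have h5 : (n ^ d + 1) * (2 ^ (c * n) + 1) * 2 ≤ 2 ^ (3 * 2 ^ (n / 2) + 1) := by
    have h6 : n ^ d + 1 ≤ 2 ^ (n + 1) := by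
      rw [pow_succ]
      have := h1.trans h8
      have h7 : 1 ≤ 2 ^ n := Nat.one_le_two_pow
      omega
    have h7 : 2 ^ (c * n) + 1 ≤ 2 ^ (c * n + 1) := by
      rw [pow_succ]
      have h7 : 1 ≤ 2 ^ (c * n) := Nat.one_le_two_pow
      omega
    calc (n ^ d + 1) * (2 ^ (c * n) + 1) * 2 ≤ 2 ^ (n + 1) * 2 ^ (c * n + 1) * 2 :=
          Nat.mul_le_mul_right _ (Nat.mul_le_mul h6 h7)
      _ = 2 ^ (c * n + n + 3) := by ring
      _ ≤ 2 ^ (3 * 2 ^ (n / 2) + 1) := by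
          apply Nat.pow_le_pow_right (by norm_num)
          have h9 : 2 ^ (n / 8) ≤ 2 ^ (n / 2) := Nat.pow_le_pow_right (by norm_num) (by omega)
          have h10 : (c + 3) * n = c * n + 3 * n := by ring
          omega
  have h6 : (((n ^ d + 1) * (2 ^ (c * n) + 1) : ℕ) : ℝ) * 2 ≤ 2 ^ (3 * 2 ^ (n / 2) + 1) := by
    exact_mod_cast h5
  calc (((n ^ d + 1) * (2 ^ (c * n) + 1) : ℕ) : ℝ) * (2 * (2 * Real.exp (-(lam / 2 * 2 ^ n))))
      = ((((n ^ d + 1) * (2 ^ (c * n) + 1) : ℕ) : ℝ) * 2) *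
        (2 * Real.exp (-(lam / 2 * 2 ^ n))) := by ring
    _ ≤ _ := mul_le_mul_of_nonneg_right h6 (by positivity)

theorem ae_bad (V : Alg) (c d : ℕ) {α δ lam : ℝ} (hδ0 : 0 < δ) (hδ1 : δ < 1 / 2)
    (hα : 0 ≤ α) (hlam : lam = Real.log 2 - Real.binEntropy δ - α * Real.log 2)
    (hpos : 0 < lam) : ∀ᵐ A ∂randomOracle, ∀ᶠ n : ℕ in atTop,
      A ∉ Bad V c d ⌊α * 2 ^ n⌋₊ ⌊δ * 2 ^ n⌋₊ n := by
  obtain ⟨m₀, hm₀⟩ := eventually_atTop.1 (bad_le V c d hδ0 hδ1 hα hlam hpos)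
  have hb : ∀ n ≥ m₀, randomOracle (Bad V c d ⌊α * 2 ^ n⌋₊ ⌊δ * 2 ^ n⌋₊ n) ≤
      ENNReal.ofReal ((1 / 2) ^ n) := fun n hn => hm₀ n hn _ _
    (Nat.floor_le (by positivity)) (Nat.floor_le (by positivity))
  have h1 : ∑' m : ℕ, randomOracle (Bad V c d ⌊α * 2 ^ (m + m₀)⌋₊ ⌊δ * 2 ^ (m + m₀)⌋₊
      (m + m₀)) ≠ ⊤ := by
    refine ne_top_of_le_ne_top ?_ (ENNReal.tsum_le_tsum fun m => hb (m + m₀) (by omega))
    have h2 : Summable (fun m : ℕ => ((1 : ℝ) / 2) ^ (m + m₀)) := by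
      refine (summable_nat_add_iff m₀).2 ?_
      exact summable_geometric_of_lt_one (by norm_num) (by norm_num)
    exact h2.tsum_ofReal_ne_top
  have h3 := measure_setOfPred_frequently_eq_zero
    (p := fun (m : ℕ) (A : Oracle) => A ∈ Bad V c d ⌊α * 2 ^ (m + m₀)⌋₊ ⌊δ * 2 ^ (m + m₀)⌋₊
      (m + m₀)) (μ := randomOracle) h1
  have h4 : ∀ᵐ A ∂randomOracle, ¬ ∃ᶠ m in atTop,
      A ∈ Bad V c d ⌊α * 2 ^ (m + m₀)⌋₊ ⌊δ * 2 ^ (m + m₀)⌋₊ (m + m₀) := by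
    rw [ae_iff]
    simp only [not_not]
    exact h3
  filter_upwards [h4] with A hA
  rw [not_frequently] at hA
  obtain ⟨m₁, hm₁⟩ := eventually_atTop.1 hA
  rw [eventually_atTop]
  refine ⟨m₁ + m₀, fun m hm => ?_⟩
  have := hm₁ (m - m₀) (by omega)
  rwa [Nat.sub_add_cancel (by omega)] at this

/-- the lower bound -/
theorem low : ∀ᵐ A ∂randomOracle, ∀ (V : Alg) (c d : ℕ) (α δ : ℝ), 0 ≤ α → 0 ≤ δ → δ ≤ 1 / 2 →
    α * Real.log 2 + Real.binEntropy δ < Real.log 2 → ∀ᶠ n : ℕ in atTop,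
      ∀ k m s : ℕ, k ≤ n ^ d → m ≤ 2 ^ (c * n) → (s : ℝ) ≤ α * 2 ^ n → ∀ H, Bits H s →
        δ * 2 ^ n < (wrong V A H m k (ParL A (d + 2)) n : ℝ) := by
  have h0 : ∀ᵐ A ∂randomOracle, ∀ (V : Alg) (c d : ℕ) (α δ : ℚ), 0 ≤ (α : ℝ) → 0 < (δ : ℝ) →
      (δ : ℝ) < 1 / 2 → (α : ℝ) * Real.log 2 + Real.binEntropy δ < Real.log 2 →
      ∀ᶠ n : ℕ in atTop, A ∉ Bad V c d ⌊(α : ℝ) * 2 ^ n⌋₊ ⌊(δ : ℝ) * 2 ^ n⌋₊ n := by
    rw [ae_all_iff]
    intro V
    rw [ae_all_iff]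
    intro c
    rw [ae_all_iff]
    intro d
    rw [ae_all_iff]
    intro α
    rw [ae_all_iff]
    intro δ
    by_cases h : 0 ≤ (α : ℝ) ∧ 0 < (δ : ℝ) ∧ (δ : ℝ) < 1 / 2 ∧
      (α : ℝ) * Real.log 2 + Real.binEntropy δ < Real.log 2
    · obtain ⟨h1, h2, h3, h4⟩ := h
      filter_upwards [ae_bad V c d h2 h3 h1 rfl (by linarith :
        0 < Real.log 2 - Real.binEntropy (δ : ℝ) - (α : ℝ) * Real.log 2)] with A hA _ _ _ _
      exact hA
    · exact Eventually.of_forall fun A h1 h2 h3 h4 => absurd ⟨h1, h2, h3, h4⟩ h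
  filter_upwards [h0] with A hA V c d α δ hα hδ hδ' h
  obtain ⟨α', δ', h1, h2, h3, h4, h5, h6⟩ := Ex.exists_rat hα hδ hδ' h
  filter_upwards [hA V c d α' δ' h3 h4 h5 h6] with n hn k m s hk hm hs H hH
  by_contra hcon
  rw [not_lt] at hcon
  apply hn
  have hp : (0 : ℝ) < 2 ^ n := by positivity
  refine ⟨k, m, hk, hm, H, fun y hy => (hH y hy).trans_le ?_, ?_⟩
  · apply Nat.le_floor
    nlinarith
  · apply Nat.le_floor
    nlinarith

end Pool.Agent.TH681.Pa
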