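import Pool.Agent.TH681.Pa.Stage
import Pool.Agent.TH681.Ex.Low

/-! The choice of the parameters. -/

set_option autoImplicit false

namespace Pool.Agent.TH681.Pa

open Finset Filter Topology Pool.Agent.H620R2.Gauge Pool.Agent.TH681.Imm

/-- the number of questions -/
theorem num_len {c n k m : ℕ} (hn : 2 ≤ n) (hk : k ≤ 2 ^ n) (hm : m ≤ 2 ^ (c * n)) :
    n + k * (2 * m + 1) ≤ 2 ^ ((c + 2) * n) := by
  have h1 : n ≤ 2 ^ n := Nat.lt_two_pow_self.le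
  have h2 : 1 ≤ 2 ^ (c * n) := Nat.one_le_two_pow
  have h3 : k * (2 * m + 1) ≤ 2 ^ n * (3 * 2 ^ (c * n)) :=
    Nat.mul_le_mul hk (by omega)
  have h4 : (4 : ℕ) ≤ 2 ^ n := by
    calc 4 = 2 ^ 2 := by norm_num
      _ ≤ 2 ^ n := Nat.pow_le_pow_right (by norm_num) hn
  have h5 : 2 ^ ((c + 2) * n) = 2 ^ n * (2 ^ n * 2 ^ (c * n)) := by
    rw [← pow_add, ← pow_add]; congr 1; ring
  rw [h5]
  have h6 : 2 ^ n * 1 ≤ 2 ^ n * 2 ^ (c * n) := Nat.mul_le_mul_left _ h2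
  calc n + k * (2 * m + 1) ≤ 2 ^ n * 2 ^ (c * n) + 2 ^ n * (3 * 2 ^ (c * n)) := by omega
    _ = 2 ^ n * (4 * 2 ^ (c * n)) := by ring
    _ ≤ 2 ^ n * (2 ^ n * 2 ^ (c * n)) := Nat.mul_le_mul_left _ (Nat.mul_le_mul_right _ h4)

theorem num_eval (P : Polynomial ℕ) {c n l : ℕ} (hn : P.eval 1 ≤ 2 ^ n)
    (hl : l ≤ 2 ^ ((c + 2) * n)) : P.eval l ≤ 2 ^ (((c + 2) * P.natDegree + 1) * n) := by
  refine (Pool.Agent.NPC.eval_mono P hl).trans ((Y_poly_le P _ Nat.one_le_two_pow).trans ?_)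
  rw [← pow_mul]
  calc P.eval 1 * 2 ^ ((c + 2) * n * P.natDegree) ≤ 2 ^ n * 2 ^ ((c + 2) * n * P.natDegree) :=
        Nat.mul_le_mul_right _ hn
    _ = _ := by rw [← pow_add]; congr 1; ring

theorem half_exp (u : ℕ) : Real.exp (-(u : ℝ)) ≤ (1 / 2) ^ u := by
  have h1 : ((1 : ℝ) / 2) ^ u = Real.exp (-(u * Real.log 2)) := by
    rw [Real.exp_neg, Real.exp_nat_mul, Real.exp_log (by norm_num), one_div, inv_pow]
  rw [h1]
  apply Real.exp_le_exp.2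
  have : Real.log 2 ≤ 1 := by
    have := Real.log_two_lt_d9
    linarith
  have h2 : (0 : ℝ) ≤ u := Nat.cast_nonneg u
  nlinarith

theorem num_switch {c C n k m : ℕ} (hC : c + 4 ≤ C) (hn : 2 ≤ n) (hk : k ≤ 2 ^ n)
    (hm : m ≤ 2 ^ (c * n)) :
    (k : ℝ) * 2 ^ (n + k * (2 * m + 1) + 2) * (1 / 2) ^ (2 ^ (C * n) + 1) ≤
      (1 / 2) ^ (2 * 2 ^ n) := by
  have h1 := num_len hn hk hm
  have h2 : (k : ℝ) ≤ 2 ^ n := by exact_mod_cast hk
  have h3 : n + (n + k * (2 * m + 1) + 2) + 2 * 2 ^ n ≤ 2 ^ (C * n) + 1 := by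
    have h4 : 2 ^ ((c + 4) * n) ≤ 2 ^ (C * n) :=
      Nat.pow_le_pow_right (by norm_num) (Nat.mul_le_mul_right _ hC)
    have h5 : 2 ^ ((c + 4) * n) = 2 ^ ((c + 2) * n) * (2 ^ n * 2 ^ n) := by
      rw [← pow_add, ← pow_add]; congr 1; ring
    have h6 : 2 ^ n ≤ 2 ^ ((c + 2) * n) := Nat.pow_le_pow_right (by norm_num) (by nlinarith)
    have h7 : n < 2 ^ n := Nat.lt_two_pow_self
    have h8 : (4 : ℕ) ≤ 2 ^ n := by
      calc 4 = 2 ^ 2 := by norm_num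
        _ ≤ 2 ^ n := Nat.pow_le_pow_right (by norm_num) hn
    have h9 : 16 ≤ 2 ^ n * 2 ^ n := Nat.mul_le_mul h8 h8
    have h10 : 2 ^ ((c + 2) * n) * 16 ≤ 2 ^ ((c + 2) * n) * (2 ^ n * 2 ^ n) :=
      Nat.mul_le_mul_left _ h9
    omega
  calc (k : ℝ) * 2 ^ (n + k * (2 * m + 1) + 2) * (1 / 2) ^ (2 ^ (C * n) + 1)
      ≤ 2 ^ n * 2 ^ (n + k * (2 * m + 1) + 2) *
        (1 / 2) ^ (n + (n + k * (2 * m + 1) + 2) + 2 * 2 ^ n) := by
        apply mul_le_mul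
        · exact mul_le_mul_of_nonneg_right h2 (by positivity)
        · exact pow_le_pow_of_le_one (by norm_num) (by norm_num) h3
        · positivity
        · positivity
    _ = (1 / 2) ^ (2 * 2 ^ n) := by
        rw [← pow_add, pow_add (1 / 2 : ℝ), ← mul_assoc, ← mul_pow]
        norm_num

theorem num_exp {C d n : ℕ} (hn : 2 * C + 9 ≤ n) :
    2 * n + (C * n + 5) * n ^ d + ((C + 1) * n + 1) ≤ n ^ (d + 2) := by
  have h1 : 1 ≤ n ^ d := Nat.one_le_pow _ _ (by omega)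
  have h2 : n ^ (d + 2) = n * n * n ^ d := by ring
  rw [h2]
  have h3 : (2 * C + 9) * n ≤ n * n := Nat.mul_le_mul_right _ hn
  have h4 : (2 * n + ((C + 1) * n + 1)) * 1 ≤ (2 * n + ((C + 1) * n + 1)) * n ^ d :=
    Nat.mul_le_mul_left _ h1
  calc 2 * n + (C * n + 5) * n ^ d + ((C + 1) * n + 1)
      ≤ (2 * n + ((C + 1) * n + 1)) * n ^ d + (C * n + 5) * n ^ d := by omega
    _ = (2 * n + ((C + 1) * n + 1) + (C * n + 5)) * n ^ d := by ring
    _ ≤ (n * n) * n ^ d := by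
        apply Nat.mul_le_mul_right
        refine le_trans ?_ h3
        have : (2 * C + 9) * n = 2 * n + ((C + 1) * n + 1) + (C * n + 5) + (6 * n - 6) := by
          have h5 : 6 * n - 6 + 6 = 6 * n := by omega
          have h6 : (2 * C + 9) * n = 2 * n + (C + 1) * n + C * n + 6 * n := by ring
          omega
        omega

/-- the size of the parts of the blocks -/
def sz' (C d n : ℕ) : ℕ := 2 ^ (n ^ (d + 2) - ((C + 1) * n + 1))

theorem num_size {C d n : ℕ} (hn : 2 * C + 9 ≤ n) :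
    (2 ^ n * 2 ^ (C * n) + 1) * sz' C d n ≤ 2 ^ (n ^ (d + 2)) := by
  have h1 := num_exp (C := C) (d := d) hn
  have h2 : 2 ^ n * 2 ^ (C * n) + 1 ≤ 2 ^ ((C + 1) * n + 1) := by
    have : 2 ^ ((C + 1) * n + 1) = 2 * (2 ^ n * 2 ^ (C * n)) := by
      rw [← pow_add, mul_comm 2, ← pow_succ]; congr 1; ring
    rw [this]
    have : 1 ≤ 2 ^ n * 2 ^ (C * n) := Nat.mul_pos (by positivity) (by positivity)
    omega
  calc (2 ^ n * 2 ^ (C * n) + 1) * sz' C d n ≤ 2 ^ ((C + 1) * n + 1) * sz' C d n :=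
        Nat.mul_le_mul_right _ h2
    _ = 2 ^ (n ^ (d + 2)) := by
        unfold sz'
        rw [← pow_add]
        congr 1
        omega

theorem num_stars {C d n k : ℕ} (hn : 2 * C + 9 ≤ n) (hk : k ≤ n ^ d) :
    (2 : ℝ) ^ n * (((2 : ℝ) ^ n * ((2 ^ (C * n) : ℕ) : ℝ) + 1) *
      (1 - (1 / (24 * ((2 ^ (C * n) : ℕ) : ℝ))) ^ k) ^ sz' C d n) ≤ (1 / 2) ^ (2 * 2 ^ n) := by
  have hexp := num_exp (C := C) (d := d) hn
  push_cast
  set q : ℝ := 1 / (24 * 2 ^ (C * n)) with hq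
  have hq0 : 0 ≤ q := by positivity
  have hq1 : q ≤ 1 := by
    rw [hq, div_le_one (by positivity)]
    have : (1 : ℝ) ≤ 2 ^ (C * n) := one_le_pow₀ (by norm_num)
    linarith
  have hqk0 : 0 ≤ q ^ k := pow_nonneg hq0 k
  have hqk1 : q ^ k ≤ 1 := pow_le_one₀ hq0 hq1
  have hqk : 1 / 2 ^ ((C * n + 5) * n ^ d) ≤ q ^ k := by
    have h1 : 1 / 2 ^ (C * n + 5) ≤ q := by
      rw [hq]
      apply div_le_div_of_nonneg_left (by norm_num) (by positivity)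
      rw [pow_add]
      have : (0 : ℝ) < 2 ^ (C * n) := by positivity
      nlinarith
    calc (1 : ℝ) / 2 ^ ((C * n + 5) * n ^ d) = (1 / 2 ^ (C * n + 5)) ^ (n ^ d) := by
          rw [div_pow, one_pow, ← pow_mul]
      _ ≤ q ^ (n ^ d) := pow_le_pow_left₀ (by positivity) h1 _
      _ ≤ q ^ k := pow_le_pow_of_le_one hq0 hq1 hk
  have hmain : ((2 ^ (2 * n) : ℕ) : ℝ) ≤ q ^ k * (sz' C d n : ℝ) := by
    have h2 : (2 : ℝ) ^ (2 * n) * 2 ^ ((C * n + 5) * n ^ d) ≤ (sz' C d n : ℝ) := by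
      unfold sz'
      push_cast
      rw [← pow_add]
      apply pow_le_pow_right₀ (by norm_num)
      omega
    have h3 : (0 : ℝ) < 2 ^ ((C * n + 5) * n ^ d) := by positivity
    calc ((2 ^ (2 * n) : ℕ) : ℝ) = 1 / 2 ^ ((C * n + 5) * n ^ d) *
          (2 ^ (2 * n) * 2 ^ ((C * n + 5) * n ^ d)) := by
          push_cast
          field_simp
      _ ≤ q ^ k * (sz' C d n : ℝ) :=
          mul_le_mul hqk h2 (by positivity) hqk0
  have h4 : (1 - q ^ k) ^ sz' C d n ≤ (1 / 2) ^ (2 ^ (2 * n)) := by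
    calc (1 - q ^ k) ^ sz' C d n ≤ (Real.exp (-(q ^ k))) ^ sz' C d n := by
          apply pow_le_pow_left₀ (by linarith)
          have := Real.add_one_le_exp (-(q ^ k))
          linarith
      _ = Real.exp (-(q ^ k * (sz' C d n : ℝ))) := by
          rw [← Real.exp_nat_mul]
          congr 1
          ring
      _ ≤ Real.exp (-((2 ^ (2 * n) : ℕ) : ℝ)) := Real.exp_le_exp.2 (by linarith)
      _ ≤ _ := half_exp _
  have h5 : (2 : ℝ) ^ n * (2 ^ n * 2 ^ (C * n) + 1) ≤ 2 ^ ((C + 2) * n + 1) := by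
    have h6 : (1 : ℝ) ≤ 2 ^ n * 2 ^ (C * n) := by
      rw [← pow_add]; exact one_le_pow₀ (by norm_num)
    have h7 : (2 : ℝ) ^ ((C + 2) * n + 1) = 2 ^ n * (2 * (2 ^ n * 2 ^ (C * n))) := by
      rw [← pow_add, mul_comm 2, ← pow_succ, ← pow_add]
      congr 1
      ring
    rw [h7]
    apply mul_le_mul_of_nonneg_left _ (by positivity)
    linarith
  have h8 : (C + 2) * n + 1 + 2 * 2 ^ n ≤ 2 ^ (2 * n) := by
    have h9 : 2 ^ (2 * n) = 2 ^ n * 2 ^ n := by rw [← pow_add]; congr 1; ring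
    have h10 : n ^ 2 ≤ 2 ^ n := by
      clear * - hn
      have hn4 : 4 ≤ n := by omega
      clear hn
      induction n, hn4 using Nat.le_induction with
      | base => norm_num
      | succ n hn ih =>
        rw [pow_succ 2 n]
        nlinarith
    have h11 : (C + 2) * n ≤ n ^ 2 := by
      rw [pow_two]
      exact Nat.mul_le_mul_right _ (by omega)
    have h12 : (8 : ℕ) ≤ 2 ^ n := by
      calc 8 = 2 ^ 3 := by norm_num
        _ ≤ 2 ^ n := Nat.pow_le_pow_right (by norm_num) (by omega)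
    rw [h9]
    have h13 : 8 * 2 ^ n ≤ 2 ^ n * 2 ^ n := Nat.mul_le_mul_right _ h12
    omega
  calc (2 : ℝ) ^ n * ((2 ^ n * 2 ^ (C * n) + 1) * (1 - q ^ k) ^ sz' C d n)
      = (2 ^ n * (2 ^ n * 2 ^ (C * n) + 1)) * (1 - q ^ k) ^ sz' C d n := by ring
    _ ≤ 2 ^ ((C + 2) * n + 1) * (1 / 2) ^ (2 ^ (2 * n)) :=
        mul_le_mul h5 h4 (pow_nonneg (by linarith) _) (by positivity)
    _ ≤ 2 ^ ((C + 2) * n + 1) * (1 / 2) ^ ((C + 2) * n + 1 + 2 * 2 ^ n) := by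
        apply mul_le_mul_of_nonneg_left _ (by positivity)
        exact pow_le_pow_of_le_one (by norm_num) (by norm_num) h8
    _ = (1 / 2) ^ (2 * 2 ^ n) := by
        rw [pow_add (1 / 2 : ℝ), ← mul_assoc, ← mul_pow]
        norm_num

end Pool.Agent.TH681.Pa
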