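import Pool.Agent.TH681.Pa.Cost
import Pool.Agent.TH681.Pa.Defs
import Pool.Agent.TH681.Adv.Stage
import Pool.Agent.H620R2.Gauge.Blk

/-! The measure of the oracles for which one algorithm makes few errors at one length. -/

set_option autoImplicit false

namespace Pool.Agent.TH681.Pa

open Pool.Agent.NPC Finset H568R2 Pool.Agent.H676 Pool.Agent.H620R2.Gauge Pool.Agent.TH681.Adv
  Pool.Agent.TH681.Imm MeasureTheory
open Pool.Agent.H628R3.RO (randomOracle coin)

/-! ### The leaves -/

/-- the leaf functions -/
def leaf2 (V : Alg) (N : ℕ) (H : Oracle) (y : List Bool) (a : Fin N → Bool) : Bool :=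
  decide (V.out (two (orc N a) H) y = some [true])

theorem dtr_run2 (M : Alg) (N : ℕ) (H : Oracle) (y : List Bool) : ∀ (n : ℕ) (acc : List Bool),
    DTr n (fun a : Fin N → Bool => decide (M.run (two (orc N a) H) y n acc = some [true])) := by
  intro n
  induction n with
  | zero =>
    intro acc
    exact ⟨false, fun a => by simp [Alg.run]⟩
  | succ n ih =>
    intro acc
    have hconst : ∀ (q : List Bool) (c : Bool), M.D (pairBits y acc) = false :: q →
        (∀ a : Fin N → Bool, two (orc N a) H q = c) → DTr (n + 1) (fun a : Fin N → Bool =>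
          decide (M.run (two (orc N a) H) y (n + 1) acc = some [true])) := by
      intro q c hq hc
      have h2 : (fun a : Fin N → Bool => decide (M.run (two (orc N a) H) y (n + 1) acc =
          some [true])) = fun a => decide (M.run (two (orc N a) H) y n (acc ++ [c]) =
          some [true]) := by
        funext a
        simp only [Alg.run, hq, hc]
      rw [h2]
      exact (ih (acc ++ [c])).succ
    rcases hq : M.D (pairBits y acc) with _ | ⟨c, q⟩
    · exact DTr.const ⟨false, fun a => by simp [Alg.run, hq]⟩
    · cases c with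
      | true => exact DTr.const ⟨decide (q = [true]), fun a => by simp [Alg.run, hq]⟩
      | false =>
        rcases q with _ | ⟨d, q⟩
        · exact hconst [] false hq fun a => rfl
        · cases d with
          | true => exact hconst (true :: q) (H q) hq fun a => rfl
          | false =>
            by_cases hN : idx q < N
            · refine Or.inr ⟨⟨idx q, hN⟩, fun b => ?_⟩
              have h1 := DTr_update (ih (acc ++ [b])) ⟨idx q, hN⟩ b
              have h2 : (fun a : Fin N → Bool => decide (M.run (two (orc N (Function.update a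
                  ⟨idx q, hN⟩ b)) H) y (n + 1) acc = some [true])) = fun a => decide (M.run
                  (two (orc N (Function.update a ⟨idx q, hN⟩ b)) H) y n (acc ++ [b]) =
                    some [true]) := by
                funext a
                have h3 : two (orc N (Function.update a ⟨idx q, hN⟩ b)) H (false :: q) = b :=
                  orc_update a q hN b
                simp only [Alg.run, hq, h3]
              rw [h2]
              exact h1
            · refine hconst (false :: q) false hq fun a => ?_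
              show orc N a q = false
              simp [orc, hN]

theorem dtr_leaf2 (V : Alg) (N : ℕ) (H : Oracle) (y : List Bool) :
    DTr (V.p.eval y.length) (leaf2 V N H y) := dtr_run2 V N H y _ []

theorem quant_QF {N m : ℕ} {a : Fin N → Bool} {F : List Bool → (Fin N → Bool) → Bool}
    {V : List Bool → List Bool} (ℓ : ℕ)
    (hV : ∀ y : List Bool, y.length ≤ ℓ → (V y = [true] ↔ F y a = true)) :
    ∀ (k : ℕ) (b : Bool) (y : List Bool), y.length + k * (2 * m + 1) ≤ ℓ →
      (Quant m V k b y ↔ QF m F k b y a = true) := by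
  intro k
  induction k with
  | zero =>
    intro b y hy
    simp only [Quant, QF]
    exact hV y (by omega)
  | succ k ih =>
    intro b y hy
    have hlen : ∀ w : List Bool, w.length ≤ m → (pairBits w y).length + k * (2 * m + 1) ≤ ℓ := by
      intro w hw
      rw [length_pairBits]
      have : (k + 1) * (2 * m + 1) = k * (2 * m + 1) + (2 * m + 1) := by ring
      omega
    cases b with
    | true =>
      simp only [Quant, QF, decide_eq_true_eq]
      exact exists_congr fun w => and_congr_right fun hw => ih false _ (hlen w hw)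
    | false =>
      simp only [Quant, QF, decide_eq_true_eq]
      exact forall_congr' fun w => forall_congr' fun hw => ih true _ (hlen w hw)

/-! ### The blocks -/

/-- The hard language: the parity of the answers for `x w` with `|w| = |x| ^ D`. -/
def ParL (A : Oracle) (D : ℕ) : Set (List Bool) :=
  {x | Odd ((Finset.range (2 ^ (x.length ^ D))).filter
    (fun j => A (x ++ bitsOf (x.length ^ D) j) = true)).card}

open Classical in
/-- the positions of the strings `x w` with `|w| = v` -/
noncomputable def blkv (N v : ℕ) (x : List Bool) : Finset (Fin N) :=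
  univ.filter (fun i => ∃ j < 2 ^ v, str i = x ++ bitsOf v j)

theorem blkv_card_filter (N v : ℕ) (x : List Bool) (hN : 2 ^ (x.length + v + 1) ≤ N + 1)
    (P : List Bool → Prop) [DecidablePred P] :
    ((blkv N v x).filter (fun i : Fin N => P (str i))).card =
      ((Finset.range (2 ^ v)).filter (fun j => P (x ++ bitsOf v j))).card := by
  symm
  have hlen : ∀ j, (x ++ bitsOf v j).length = x.length + v := by
    intro j
    rw [List.length_append, length_bitsOf]
  have hlt : ∀ j, idx (x ++ bitsOf v j) < N := by
    intro j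
    have h1 := idx_lt (x ++ bitsOf v j)
    rw [hlen] at h1
    omega
  refine Finset.card_bij (fun j _ => ⟨idx (x ++ bitsOf v j), hlt j⟩) ?_ ?_ ?_
  · intro j hj
    rw [Finset.mem_filter, Finset.mem_range] at hj
    rw [Finset.mem_filter, blkv, Finset.mem_filter]
    refine ⟨⟨Finset.mem_univ _, j, hj.1, ?_⟩, ?_⟩
    · exact str_idx _
    · show P (str (idx (x ++ bitsOf v j)))
      rw [str_idx]; exact hj.2
  · intro j hj j' hj' h
    rw [Finset.mem_filter, Finset.mem_range] at hj hj'
    have h1 : idx (x ++ bitsOf v j) = idx (x ++ bitsOf v j') := by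
      simpa using h
    have h2 : x ++ bitsOf v j = x ++ bitsOf v j' := by
      rw [← str_idx (x ++ bitsOf v j), h1, str_idx]
    exact bitsOf_inj hj.1 hj'.1 (List.append_cancel_left h2)
  · intro i hi
    rw [Finset.mem_filter, blkv, Finset.mem_filter] at hi
    obtain ⟨⟨_, j, hj, hij⟩, hP⟩ := hi
    refine ⟨j, ?_, ?_⟩
    · rw [Finset.mem_filter, Finset.mem_range]
      exact ⟨hj, by rw [← hij]; exact hP⟩
    · apply Fin.ext
      show idx (x ++ bitsOf v j) = i
      rw [← hij, idx_str]

theorem blkv_card (N v : ℕ) (x : List Bool) (hN : 2 ^ (x.length + v + 1) ≤ N + 1) :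
    (blkv N v x).card = 2 ^ v := by
  have h := blkv_card_filter N v x hN (fun _ => True)
  simpa using h

theorem blkv_par (N D : ℕ) (A : Oracle) (x : List Bool)
    (hN : 2 ^ (x.length + x.length ^ D + 1) ≤ N + 1) :
    H620R2.Gauge.par (blkv N (x.length ^ D) x) (pre N A) = true ↔ x ∈ ParL A D := by
  have h := blkv_card_filter N (x.length ^ D) x hN (fun y => A y = true)
  unfold H620R2.Gauge.par pre ParL
  rw [decide_eq_true_eq, Set.mem_ofPred_eq, ← h]

theorem blkv_disj (N v : ℕ) (x x' : List Bool) (hl : x.length = x'.length) (hne : x ≠ x') :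
    Disjoint (blkv N v x) (blkv N v x') := by
  rw [Finset.disjoint_left]
  intro i hi hi'
  rw [blkv, Finset.mem_filter] at hi hi'
  obtain ⟨_, j, _, hj⟩ := hi
  obtain ⟨_, j', _, hj'⟩ := hi'
  apply hne
  rw [hj] at hj'
  exact (List.append_inj hj' hl).1

/-! ### One algorithm at one length -/

/-- the bound for one advice -/
noncomputable def bd (t m k n s e : ℕ) (θ : ℝ) : ℝ :=
  k * 2 ^ (n + k * (2 * m + 1) + 2) * (1 / 2) ^ (t + 1) +
    2 ^ n * ((2 ^ n * t + 1) * (1 - (1 / (24 * t)) ^ k) ^ s) + (θ ^ e)⁻¹ * ((1 + θ) / 2) ^ 2 ^ n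

theorem one_H (V : Alg) (H : Oracle) {t m k n s e D : ℕ} (ht : 1 ≤ t)
    (hV : V.p.eval (n + k * (2 * m + 1)) ≤ t) (hs : (2 ^ n * t + 1) * s ≤ 2 ^ (n ^ D))
    {θ : ℝ} (hθ0 : 0 < θ) (hθ1 : θ ≤ 1) :
    randomOracle {A : Oracle | wrong V A H m k (ParL A D) n ≤ e} ≤
      ENNReal.ofReal (bd t m k n s e θ) := by
  classical
  obtain ⟨qb, hqb⟩ := Alg.out_local V
  set ℓ : ℕ := n + k * (2 * m + 1) with hℓ
  set N : ℕ := 2 ^ (qb.eval ℓ + n + n ^ D + 1) with hNdef
  have hN : ∀ j, 2 ^ ((bitsOf n j).length + n ^ D + 1) ≤ N + 1 := by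
    intro j
    rw [length_bitsOf]
    have : 2 ^ (n + n ^ D + 1) ≤ N := Nat.pow_le_pow_right (by norm_num) (by omega)
    omega
  have hloc : ∀ (A : Oracle) (y : List Bool), y.length ≤ ℓ →
      V.out (two (orc N (pre N A)) H) y = V.out (two A H) y := by
    intro A y hy
    obtain ⟨Q, hQ1, hQ2, hQ3⟩ := hqb (two A H) y
    apply hQ3
    intro q hq
    apply two_congr
    rintro z rfl
    apply orc_pre
    have h1 := hQ2 _ hq
    rw [List.length_cons] at h1
    have h2 := idx_lt z
    have h3 := eval_mono qb hy
    have h4 : 2 ^ (z.length + 1) ≤ N := Nat.pow_le_pow_right (by norm_num) (by omega)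
    omega
  set E : (Fin N → Bool) → Prop := fun a =>
    ((Finset.range (2 ^ n)).filter (fun j => QF m (leaf2 V N H) k true (bitsOf n j) a ≠
      H620R2.Gauge.par (blkv N (n ^ D) (bitsOf n j)) a)).card ≤ e with hE
  have hsub : {A : Oracle | wrong V A H m k (ParL A D) n ≤ e} ⊆ {A : Oracle | E (pre N A)} := by
    intro A hA
    refine le_trans ?_ (show wrong V A H m k (ParL A D) n ≤ e from hA)
    unfold wrong
    have hfin : {x : List Bool | x.length = n ∧ ¬ (x ∈ ParL A D ↔
        Quant m (fun y => (V.out (two A H) y).getD []) k true x)}.Finite :=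
      (List.finite_length_eq Bool n).subset fun x hx => hx.1
    rw [← Set.ncard_coe_finset]
    refine Set.ncard_le_ncard_of_injOn (fun j : ℕ => bitsOf n j) ?_ ?_ hfin
    · intro j hj
      rw [Finset.mem_coe, Finset.mem_filter, Finset.mem_range] at hj
      refine ⟨length_bitsOf n j, fun hcon => hj.2 ?_⟩
      have h1 := quant_QF (N := N) (m := m) (a := pre N A) (F := leaf2 V N H)
        (V := fun y => (V.out (two A H) y).getD []) ℓ (fun y hy => by
          unfold leaf2
          rw [hloc A y hy, decide_eq_true_iff]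
          rcases h2 : V.out (two A H) y with _ | z <;> simp) k true (bitsOf n j)
        (by rw [length_bitsOf])
      have h2 := blkv_par N D A (bitsOf n j) (by rw [length_bitsOf]; have := hN j; rwa
        [length_bitsOf] at this)
      rw [length_bitsOf] at h2
      rw [Bool.eq_iff_iff, ← h1, h2]
      exact hcon.symm
    · intro j hj j' hj' h
      rw [Finset.mem_coe, Finset.mem_filter, Finset.mem_range] at hj hj'
      exact bitsOf_inj hj.1 hj'.1 h
  refine (measure_mono hsub).trans ((meas_event E).trans (ENNReal.ofReal_le_ofReal ?_))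
  have htR : (1 : ℝ) ≤ (t : ℝ) := by exact_mod_cast ht
  set q : ℝ := 1 / (24 * t) with hq
  have hq0 : 0 ≤ q := by positivity
  have hq1 : q ≤ 1 / 3 := by
    rw [hq, div_le_div_iff₀ (by positivity) (by norm_num)]
    linarith
  have h1 := comb (I := Fin N) ht hq0 hq1 m (leaf2 V N H) k n (by
      intro y hy
      refine (dtr_leaf2 V N H y).mono ((eval_mono _ hy).trans hV))
    (Finset.range (2 ^ n)) (fun j => blkv N (n ^ D) (bitsOf n j)) (by
      intro j hj j' hj' hne
      rw [Finset.mem_range] at hj hj'
      apply blkv_disj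
      · rw [length_bitsOf, length_bitsOf]
      · intro h
        exact hne (bitsOf_inj hj hj' h)) (fun j => bitsOf n j) (by
      intro j _
      rw [length_bitsOf]) (2 ^ n * t) s (by rw [Finset.card_range]) (by
      intro j _
      rw [blkv_card N _ _ (hN j)]
      exact hs) hθ0 hθ1 e
  rw [Finset.card_range] at h1
  have hqt : 12 * (t : ℝ) * q = 1 / 2 := by
    rw [hq]; field_simp; norm_num
  rw [hqt] at h1
  unfold bd
  push_cast at h1
  convert h1

theorem all_H (V : Alg) {t m k n s e D S : ℕ} (ht : 1 ≤ t)
    (hV : V.p.eval (n + k * (2 * m + 1)) ≤ t) (hs : (2 ^ n * t + 1) * s ≤ 2 ^ (n ^ D))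
    {θ : ℝ} (hθ0 : 0 < θ) (hθ1 : θ ≤ 1) :
    randomOracle {A : Oracle | ∃ H, Bits H S ∧ wrong V A H m k (ParL A D) n ≤ e} ≤
      ENNReal.ofReal (2 ^ S * bd t m k n s e θ) := by
  have hsub : {A : Oracle | ∃ H, Bits H S ∧ wrong V A H m k (ParL A D) n ≤ e} ⊆
      ⋃ b : Fin S → Bool, {A : Oracle | wrong V A (orc S b) m k (ParL A D) n ≤ e} := by
    rintro A ⟨H, hH, hA⟩
    rw [Set.mem_iUnion]
    refine ⟨pre S H, ?_⟩
    rw [orc_pre_eq hH]
    exact hA
  refine (measure_mono hsub).trans ((measure_iUnion_le _).trans ?_)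
  rw [tsum_fintype]
  refine (Finset.sum_le_sum fun b _ => one_H V (orc S b) ht hV hs hθ0 hθ1).trans (le_of_eq ?_)
  rw [Finset.sum_const, Finset.card_univ, Fintype.card_fun, Fintype.card_bool, Fintype.card_fin,
    nsmul_eq_mul, ENNReal.ofReal_mul (p := (2 : ℝ) ^ S) (by positivity),
    ENNReal.ofReal_pow (by norm_num)]
  congr 1
  simp

end Pool.Agent.TH681.Pa
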